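import Pool.Agent.H854.K.FixIdx

/-!
# The Tate conjecture for cycles of a fixed dimension, semisimplicity, and one sequence of smooth
affine cubic hypersurfaces

For `m ≥ 1` let `G_m` be the following polynomial with integral coefficients (`univ ℤ m`). A relation
`r` of size `m` is one of the equations `x_i x_j = x_l`, `x_i + x_j = x_l`, `x_i = 1` with
`i, j, l < m`. There are variables `x_i` and `z_ij` for `i, j < m`, and `c_r` for all relations `r`.
The equations (`eqn`) are

  `z_ij - x_i x_j`,  `c_r ^ 2 - c_r`,  `c_r ρ_r`,

where `ρ_r` is the linear polynomial `z_ij - x_l`, `x_i + x_j - x_l` or `x_i - 1` of the relation.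
`G_m` is the sum of the equations multiplied by further variables `t_e`, one for each equation; it is
a cubic polynomial. Let `E_m` be the affine cubic hypersurface `y ^ 2 - y = G_m`, which is smooth over
all fields. Its dimension is `6 m ^ 3 + 2 m ^ 2 + 4 m`; there are `num m = 4 m ^ 3 + m ^ 2 + 2 m`
equations.

Let `k = F_p`, `ℓ ≠ p` and `F` the field of `ℓ`-adic numbers. For separated schemes `X` of finite type
over `k` let `C.M X n` be the group of cycles of dimension `n` modulo rational equivalence and
`T.V X n` the Borel–Moore homology group `H_{2 n}(X̄, ℚ_ℓ(-n))`, with the Frobenius and the cycle class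
map. For smooth proper `X` of dimension `d` this is `H^{2 j}(X̄, ℚ_ℓ(j))` with `j = d - n`. `T.Tate X n`
says that the elements fixed by the Frobenius are linear combinations of classes of cycles of dimension
`n`, and `T.GenTate X n` says this for all generalized eigenvectors for the eigenvalue `1`. So for
smooth proper `X` the statement `T.GenTate X n` is the Tate conjecture for the cycles of dimension `n`
on `X` together with the semisimplicity of the eigenvalue `1` of the Frobenius.

The properties of the theory that are used (`IsChow`, `Realization.IsValid`, `Point`, `IsFinite`,
`CycleSupports`, `Dominated`) are known: the long exact sequences of a closed subscheme and its open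
complement, the flat pull-back with its compatibilities, the invariance under affine bundles, the
homology of the point, finite dimension; a cycle of dimension `n` is zero on the complement of its
support `Z`, and the homology `H_{2 n}(Z̄, ℚ_ℓ(-n))` of a scheme `Z` of dimension at most `n` has a basis
which is permuted by the Frobenius, the classes of the irreducible components of `Z̄` of dimension `n`;
the generalized eigenvectors for the eigenvalue `1` come from smooth proper schemes (weights; Deligne,
de Jong, Jannsen).

**Theorem.** Let `n` be an integer. The following statements are equivalent.

1. The Tate conjecture for the cycles of dimension `n + 4 m ^ 3 + m ^ 2 + 2 m` on `E_m`, for infinitely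
   many `m`;
2. the same for all large `m`;
3. the Tate conjecture for the cycles of dimension `n` on all affine schemes of finite type over `k`;
4. the Tate conjecture and the semisimplicity of the eigenvalue `1` for the cycles of dimension `n` on
   all smooth proper schemes over `k`;
5. the Tate conjecture and the semisimplicity for the cycles of dimension `n` on all separated schemes
   of finite type over all finite fields of characteristic `p`.

For each `n` this is a statement on one group for each hypersurface `E_m`. For `n = 1` the
statements are equivalent to the Tate conjecture for divisors on all smooth projective surfaces over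
finite fields of characteristic `p`, to the Tate conjecture for divisors on all smooth projective
varieties, and to the conjecture of Birch and Swinnerton-Dyer for the abelian varieties over all
function fields of curves over finite fields of characteristic `p` (Tate, Artin, Milne, Kato–Trihan, de
Jong, Morrow; this is not part of the Lean statement).

Idea of the proof. For the equivalence of 1, 2 and 3 see `K.FixIdx`: `E_m` is an affine bundle over the
complement of the zero set `W_m` of the equations in an affine space `S` and the union of two affine
bundles of rank `num m` over `W_m`, and every affine scheme of finite type over `k` is a clopen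
subscheme of `W_m` for large `m`. For the step from 3 to 5 we use Noetherian induction. Let `x` be a
generalized eigenvector on `X`; by induction `y = (φ - 1) x` is algebraic, so it is zero on the open
complement of a closed subset of dimension at most `n`. If this complement is not empty, it contains
an affine open subset `W`; the restriction of `x` to `W` is fixed, so it is algebraic by 3. So `x` is
the sum of an algebraic class and a class from `X ∖ W`, which is the image of a generalized eigenvector,
and the induction applies to `X ∖ W`. Otherwise `X` has dimension at most `n`.
-/

set_option autoImplicit false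

open CategoryTheory AlgebraicGeometry Pool.Agent.H854.K
open Pool.Agent.H854.SQ (IsPrimeField univ totalDegree_univ map_univ Eqn)

namespace Pool.Agent.Results.MP_0fca13_ag.CyclesOfFixedDimension

/-- The number of the equations of the universal system. -/
def num (m : ℕ) : ℕ := 4 * m ^ 3 + m ^ 2 + 2 * m

theorem card_eqn (m : ℕ) : Fintype.card (Eqn m) = num m := by
  simp only [Fintype.card_sum, Fintype.card_prod, Fintype.card_fin, num]
  ring

/-- **The Tate conjecture and semisimplicity for the cycles of a fixed dimension on all varieties
over finite fields, and one sequence of smooth affine cubic hypersurfaces.** -/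
theorem result {k : Type} [Field k] (hk : IsPrimeField k) {F : Type} [Field F] [CharZero F]
    {C : Grp k ℤ} (T : Realization C F Unit) (hC : IsChow C) (hT : T.IsValid) (hp : T.Point)
    (n : ℤ) (hf : T.IsFinite n) (hs : T.CycleSupports n) (hd : T.Dominated n) :
    List.TFAE [∃ᶠ m in Filter.atTop, T.Tate (seq k 2 m) (n + num m),
      ∀ᶠ m in Filter.atTop, T.Tate (seq k 2 m) (n + num m),
      ∀ X, IsAffineVar X → T.Tate X n,
      T.GenTateFor IsSmoothProperVar n,
      T.GenTateFor IsVar n ∧ T.GenTateOverExtensions n] ∧
    ∀ m : ℕ, 0 < m → Smooth (str (seq k 2 m)) ∧
      (univ ℤ m).totalDegree ≤ 3 ∧ MvPolynomial.map (Int.castRingHom k) (univ ℤ m) = univ k m := by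
  refine ⟨?_, fun n hn => ⟨smooth_seq_two hn, totalDegree_univ ℤ n, map_univ _ n⟩⟩
  simp only [← card_eqn]
  tfae_have 1 → 3 := tate_affine hC hT hk n
  tfae_have 3 → 2 := tate_seq hC hT hp n
  tfae_have 2 → 1 := fun h => h.frequently
  tfae_have 5 → 4 := fun h X hX => h.1 X hX.1
  tfae_have 4 → 5 := by
    intro h
    have h1 : T.GenTateFor IsVar n := by
      intro X hX
      obtain ⟨X', hX', hL⟩ := hd X hX
      have h1 := (gen_iff hT X' n).1 (h X' hX')
      exact (gen_iff hT X n).2 ⟨hL.semi h1.1, hL.tate h1.1 h1.2⟩
    refine ⟨h1, fun K _ _ _ C' T' hL X hX => ?_⟩
    have h2 := (gen_iff hT _ n).1 (h1 _ (Pool.Agent.H854.SQ.isVariety_down hX))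
    exact Obj.gen_of ((hL X hX).semi h2.1) ((hL X hX).tate h2.1 h2.2)
  tfae_have 5 → 3 := fun h X hX => (tate_iff X n).2 ((gen_iff hT X n).1 (h.1 X hX.1)).2
  tfae_have 3 → 4 := fun h X hX => gen_of_affine hC hT hf hs h X hX.1
  tfae_finish

end Pool.Agent.Results.MP_0fca13_ag.CyclesOfFixedDimension
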