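import Pool.Agent.H857.MX.Master
import Pool.Agent.H857.MX.Good
import Pool.Graph.R_pool_sql_team_seeded_2aa45f1a.Q64.L.ClThms

/-!
# MP_0fca13_ag: the Tate conjecture over finitely generated fields for `A × Z`, for arbitrary
varieties `Z` and all constant abelian varieties `A` but a set of isogeny classes of the exact
order of magnitude of its size

Let `g i` (`i` in a finite set `I`) be positive integers. For a prime power `q = p ^ a` let
`families g p a` be the finite set of the families `f i` of Weil polynomials of degrees `2 g i`
relative to `q` with integral Newton polygons. It contains the families of the characteristic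
polynomials of the Frobenius endomorphisms of abelian varieties `A i` of dimensions `g i` over the
field with `q` elements (Weil), which determine the `A i` up to isogeny (Tate). It has about `q ^
(∑ g i (g i + 1) / 4)` elements.

Let `Z` be any smooth projective variety over a finitely generated field `K` which has good
reduction at a place `v` of `K` with residue field of `q` elements, and let the `ρ k` be the
eigenvalues of the Frobenius element of this one place on the `ℓ`-adic cohomology of `Z`. (More
generally, let the `ρ k` be any `r` Weil numbers of weights less than `c` with slopes in `(1 / D)
ℤ`.) The family `f` is exceptional if there is a multiplicative relation between roots of the `f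
i`, the numbers `ρ k` and `q`, up to roots of unity, which does not come from the pairs of
conjugate roots `z`, `q / z`.

1. The proportion of the exceptional families among all the families is of the exact order of
magnitude `∑ q ^ (- δ (g i) / 2)`, where `δ (g) = g` for `g ≠ 2` and `δ (2) = 1`: it is at most
`C` times, and at least `1 / C` times this sum. The constant `C` depends only on the `g i`, on
`r`, `c` and `D` - not on `p`, `q` and the `ρ k`.

2. For all families `f` which are not exceptional, for all `s > 0`, all abelian varieties `A` over
the field with `Q = q ^ s` elements which are isogenous to a product of powers of abelian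
varieties `A i` with characteristic polynomials `f i`, all finitely generated fields `K` which
contain this field, and all smooth projective varieties `Z'` over `K` with good reduction at a
place with residue field of `Q` elements, such that the eigenvalues of the Frobenius element of
this one place on the `ℓ`-adic cohomology of `Z'` lie, up to powers, in the group generated by the
`ρ k` and `q`: for all `j`, **the group `A^j(A × Z')` is finitely generated and `A^j(A × Z') ⊗ ℚ_ℓ
→ H^(2 j)(A × Z', ℚ_ℓ(j))^Γ` is an isomorphism if and only if the same is true for `A^(j -
k)(Z')`, for all `0 ≤ k ≤ dim A`** (`TateIsoReduces`).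

Nothing else is assumed on `Z'`. The exceptional set depends on one place only, and it is the same
for all varieties with the same eigenvalues at this place. What is used of `A` are known theorems
(`IsAbelian`): `H(A)` is generated by `H^1`, Frobenius is diagonalizable on `H^1` (Weil), the
theorem of Tate on divisors, and the nilpotence of homologically trivial correspondences (Kimura).
The `ℓ`-adic cohomology `R` of `Z'` and `A × Z'` over an algebraic closure of `K` is modelled by
`RelData`, with the formal properties in `IsRel`; the classes of cycles and the Galois invariants
are `ClassData`, with the formal properties in `IsClassData`. The framework and the geometric part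
(`Q64.L.tateIsoReduces`) are those of the earlier theorem `AllCMTypesTimesOverFields` of the
library on CM types.
-/

set_option autoImplicit false

namespace Pool.Agent.Results.MP_0fca13_ag.SharpExceptionalSet

open Pool.Agent.H857.SX Pool.Agent.H857.MX Pool.Agent.Q64.L

/-- **The exceptional set.** -/
theorem result {I : Type} [Fintype I] (g : I → ℕ) (hg : ∀ i, 0 < g i) (r D c : ℕ) (hD : 0 < D) :
    ∃ C : ℝ, 0 < C ∧ ∀ (p : ℕ) [Fact p.Prime] (a : ℕ), 0 < a →
      ((families g p a).Finite ∧
        ∏ i, Real.sqrt ((p : ℝ) ^ a) ^ (g i * (g i + 1) / 2) ≤ C * (families g p a).ncard ∧
        (families g p a).ncard ≤ C * ∏ i, Real.sqrt ((p : ℝ) ^ a) ^ (g i * (g i + 1) / 2)) ∧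
      ∀ (w : Fin r → ℕ) (ρ : Fin r → ℂ), (∀ k, w k < c ∧ IsWeilNumber p a D (w k) (ρ k)) →
        (({f ∈ families g p a | ¬ Independent f (p ^ a) ρ}.ncard : ℝ) ≤
            C * (rate g ((p : ℝ) ^ a) * (families g p a).ncard) ∧
          rate g ((p : ℝ) ^ a) * (families g p a).ncard ≤
            C * {f ∈ families g p a | ¬ Independent f (p ^ a) ρ}.ncard) ∧
        ∀ f ∈ families g p a, Independent f (p ^ a) ρ →
          TateIsoReduces (RootsIn (Generated (p ^ a) ρ)) (p ^ a) f :=
  Pool.Agent.H857.MX.master g hg r D c hD (fun q f R => TateIsoReduces (RootsIn R) q f)
    fun _ _ _ hq _ h0 hR => tateIsoReduces hq (good_of_noRel hR h0)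

end Pool.Agent.Results.MP_0fca13_ag.SharpExceptionalSet
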