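import Pool.Agent.H854.K.Supp
import Pool.Agent.H854.K.Zero

/-!
# The Tate conjecture (strong form) for all smooth projective varieties over all finitely generated
fields, and one group for each member of one sequence of smooth affine cubic hypersurfaces

For `m ≥ 1` let `G_m` be the following polynomial with integral coefficients (`univ ℤ m`). A relation
`r` of size `m` is one of the equations `x_i x_j = x_l`, `x_i + x_j = x_l`, `x_i = 1` with
`i, j, l < m`. There are variables `x_i` and `z_ij` for `i, j < m`, and `c_r` for all relations `r`.
The equations (`eqn`) are

  `z_ij - x_i x_j`,  `c_r ^ 2 - c_r`,  `c_r ρ_r`,

where `ρ_r` is the linear polynomial `z_ij - x_l`, `x_i + x_j - x_l` or `x_i - 1` of the relation.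
`G_m` is the sum of the equations multiplied by further variables `t_e`, one for each equation; it is
a cubic polynomial. Let `E_m` be the affine cubic hypersurface `y ^ 2 - y = G_m`, which is smooth over
all fields, of dimension `6 m ^ 3 + 2 m ^ 2 + 4 m`, and let `Y_m` be the covering `y ^ p - y = G_m` of an
affine space over `F_p`, which is finite and étale.

# Characteristic `p`

Let `k = F_p`.

**The data** (`Data`). `Λ` is the set of the primes `l ≠ p`, and `G l` the field of `l`-adic numbers.
`D.C.M X n` is the group of cycles of dimension `n` on the scheme `X` over `k`, modulo rational
equivalence, with integral coefficients. `D.T l` is the Borel–Moore homology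
`H_{2 n + m}(X̄, ℚ_l(-n))` with the Frobenius and the cycle class maps; for smooth proper `X` of
dimension `d` the group `H_{2 n}(X̄, ℚ_l(-n))` is `H^{2 j}(X̄, ℚ_l(j))`, `j = d - n`. `D.deg` are the
intersection numbers, and `D.pole X n` is the order of the pole of the zeta function of `X` at
`s = n`. For a finitely generated extension `K` of `k` and a smooth proper scheme `X` over `K` let `k'`
be the algebraic closure of `k` in `K`; the space `D.W l K X n` consists of the elements of
`H_{2 n}(X̄, ℚ_l(-n))` which are fixed by the Galois group of `K k̄`, with the action of the Frobenius
of `k'`; its fixed elements are the elements of `H_{2 n}(X̄, ℚ_l(-n))` which are fixed by the Galois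
group of `K`. It contains the classes of the cycles on `X` (`D.Z K X n`).

**The properties that are used** (`Data.IsValid`) are theorems: the long exact sequences of a closed
subscheme and its open complement, the flat pull-back with its compatibilities, the invariance under
affine bundles; a combination of cycle classes is zero on the complement of the supports, and on the
homology `H_{2 n}(Z̄, ℚ_l(-n))` of a scheme of dimension `≤ n` the Frobenius has finite order, since it
permutes the irreducible components; Poincaré duality, over `K` in the form: the pairing of the
spaces `W` is perfect, which follows from Deligne's theorem on the semisimplicity of the geometric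
monodromy; the formulas for the zeta function and the integrality and independence of `l` of the
characteristic polynomials (Grothendieck, Deligne); the generalized eigenvectors for the eigenvalue
`1` come from smooth proper schemes (weights; Deligne, de Jong, Jannsen); every smooth proper scheme `X`
over `K` has a model over `k`, and `W` is a quotient of the homology of the model by Deligne's theorem.

**Theorem.** The following statements are equivalent.

1. For infinitely many `m`, every Frobenius-invariant class in the one group `H_{2 i}(Ē_m, ℚ_ℓ(-i))`,
   `i = ⌊m / 2⌋ + 4 m ^ 3 + m ^ 2 + 2 m`, is a linear combination of cycle classes; here `ℓ` is one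
   fixed prime. (It is the group `H^{2 j}(Ē_m, ℚ_ℓ(j))`, `j = 2 m ^ 3 + m ^ 2 + 2 m - ⌊m / 2⌋`.)
2. The same for the coverings `Y_m`.
3. The same for all, possibly singular or open, varieties over `k` and in all degrees; here `ℓ` is
   fixed.
4. The same for all, possibly singular or open, varieties over `k` and for all primes `l ≠ p`.
5. For infinitely many `m` there is a smooth proper scheme `P_m` over `k`, such that the generalized
   eigenvectors for the eigenvalue `1` in `H_{2 i}(Ē_m, ℚ_ℓ(-i))` come from `H_{2 n}(P̄_m, ℚ_ℓ(-n))`, and
   such that one equality of two integers is true: the rank of the group of cycles of the dimension `n`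
   on `P_m` modulo numerical equivalence is the order of the pole of the zeta function of `P_m` at
   `s = n`. (There are such schemes `P_m` for all `m`.)
6. For all smooth proper `X` over `k` and all `n` the rank of the group of cycles of dimension `n` modulo
   numerical equivalence is the order of the pole of the zeta function of `X` at `s = n`.
7. For all finitely generated fields `K` of characteristic `p`, all smooth proper varieties `X` over
   `K`, all primes `l ≠ p` and all `n`: the group `A` of the classes of cycles of dimension `n` is
   finitely generated, and the natural map from `A ⊗ ℚ_l` to the Galois invariants is an isomorphism;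
   moreover the eigenvalue `1` of the Frobenius is semisimple.

# Characteristic zero

Let `k = ℚ` and let `ℓ` be a prime. For all finitely generated extensions `K` of `k` we consider the
cycle groups `(W.C K).M X n`, the Galois group `W.G K` and the Borel–Moore homology `W.T K`,
`(W.T K).V X n = H_{2 n}(X̄, ℚ_ℓ(-n))`. The properties that are used (`World.IsValidOver`) are theorems:
over `k` the long exact sequences, the flat pull-back, the invariance under affine bundles; the group
of the classes of cycles is a lattice in the space generated by it (comparison with singular
cohomology); the invariant classes on a variety come from a smooth projective variety (Hironaka,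
Deligne, and the semisimplicity of the category of pure motives for motivated cycles, André); the
invariant classes on a variety over `K` come from a variety over `k` (Deligne's decomposition theorem for
a model of a smooth projective variety).

**Theorem.** The following statements are equivalent.

1. For infinitely many `m`, every Galois-invariant class in the one group `H_{2 i}(Ē_m, ℚ_ℓ(-i))`,
   `i = ⌊m / 2⌋ + 4 m ^ 3 + m ^ 2 + 2 m`, is a linear combination of cycle classes.
2. For infinitely many `m` there is a smooth proper variety `P_m` over `ℚ`, such that the invariant
   classes in `H_{2 i}(Ē_m, ℚ_ℓ(-i))` come from invariant classes in one group `H_{2 n}(P̄_m, ℚ_ℓ(-n))`,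
   and such that the invariant classes in this one group are linear combinations of cycle classes.
3. The same for all smooth proper varieties over `ℚ`, in all degrees.
4. For all finitely generated fields `K` of characteristic zero, all smooth proper varieties `X` over
   `K` and all `n`: the group `A` of the classes of cycles of dimension `n` is finitely generated, and
   the natural map from `A ⊗ ℚ_ℓ` to the Galois invariants is an isomorphism.
5. For all, possibly singular or open, varieties over all such `K` the Galois-invariant classes are
   linear combinations of cycle classes (Jannsen's form).

So all of Q1 (finite generation, injectivity and surjectivity, for all finitely generated fields and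
all `ℓ`) is equivalent to a statement on surjectivity for one group of each member of one sequence of
smooth affine cubic hypersurfaces over the integers, over `F_p` for one prime `ℓ ≠ p` for each `p`, and
over `ℚ` for all `ℓ`. Here the varieties in characteristic `p` are the schemes of finite type with an
affine bundle whose total space is affine; by Jouanolou these include all quasi-projective schemes.

Idea of the proof. `G_m` is linear in the variables `t_e`. Let `W_m` be the zero set of the equations
in the affine space `S` with the coordinates `x_i, z_ij, c_r`. The map `E_m → S` is an affine bundle
over the complement of `W_m`, and the disjoint union of two affine bundles over `W_m`, of rank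
`4 m ^ 3 + m ^ 2 + 2 m`. So the homology and the cycle groups of one of these two bundles inject into
those of `E_m`, and for the cycle groups this is an isomorphism, except in the dimension of `S`. Every
affine scheme `Z` of finite type over `k` is defined by relations of the three kinds in `a` variables,
for some `a`; then `Z × A^b` is a clopen subscheme of `W_m`, if `m ≥ a + b`. The classes of dimension `d`
on `Z` are the classes of dimension `d + b` on `Z × A^b`. If `m` is large, then we can take
`b = ⌊m / 2⌋ - d`.
In characteristic `p`, from 3 to semisimplicity for smooth proper `X`: let `(φ - 1) x = y` be fixed by
`φ`. Then `y` is algebraic, hence zero on the complement `U` of a closed subscheme `Z` of dimension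
`≤ n`, so `x` is fixed on `U`, and by 3 for `U` it is algebraic there. So `x` is the sum of an algebraic
class and a class `x'` which comes from `Z`, and `(φ - 1) x' = y`. Since `φ ^ N x' = x'` for some `N`,
we obtain `N y = 0`. From semisimplicity and the surjectivity of the cycle class map in dimensions `n`
and `d - n` we obtain 6; the condition 6 does not depend on `ℓ` and implies both again, for all `l`, for
smooth proper varieties over `k`, and 5 implies both for the group in 1. By the last properties they hold for all varieties over `k`, for all
`l`, and for all smooth proper varieties over `K`.
-/

set_option autoImplicit false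

open CategoryTheory AlgebraicGeometry Pool.Agent.H854.K
open Pool.Agent.H854.SQ (IsPrimeField univ totalDegree_univ map_univ)
open Pool.Agent.H854.AS (pol_two pol_prime)

namespace Pool.Agent.Results.MP_0fca13_ag.StrongFormFromOneGroup

/-- The Tate conjecture for the cycles of the one dimension `index m` on the covering
`y ^ q - y = G_m`, for infinitely many `m`. -/
def OneGroup {k : Type} [Field k] {C : Grp k ℤ} {F : Type} [Field F] (T : Realization C F Unit)
    (q : ℕ) : Prop := ∃ᶠ m in Filter.atTop, T.Tate (seq k q m) (index m)

/-- **The strong form of the Tate conjecture for all finitely generated fields is equivalent to its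
weak form for one group of each member of one sequence of smooth affine cubic hypersurfaces over the
integers.** -/
theorem result :
    (∀ (k : Type) [Field k], IsPrimeField k → ∀ (p : ℕ) [Fact p.Prime] [CharP k p] (Λ : Type)
      (F : Λ → Type) [∀ l, Field (F l)] [∀ l, CharZero (F l)] (D : Data k Λ F), D.IsValid →
      ∀ l₀ : Λ, List.TFAE [OneGroup (D.T l₀) 2, OneGroup (D.T l₀) p,
        (D.T l₀).TateFor IsAdm, ∀ l, (D.T l).TateFor IsAdm, D.OneRank l₀, D.RankConjecture,
        D.StrongConjecture]) ∧
    (∀ (k : Type) [Field k], IsPrimeField k → ∀ (F : Type) [Field F] (W : World F),
      W.IsValidOver k → List.TFAE [W.OneDimension k, W.OneSmoothProper k,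
        (W.T k).TateFor IsSmoothProper, W.StrongOver k, W.TateOver k IsVar]) ∧
    ∀ (k : Type) [Field k], ∀ m : ℕ, 0 < m → Smooth (str (seq k 2 m)) ∧
      (univ ℤ m).totalDegree ≤ 3 ∧ MvPolynomial.map (Int.castRingHom k) (univ ℤ m) = univ k m := by
  refine ⟨?_, fun k _ hk F _ W hW => tfae_zero k hk hW,
    fun k _ n hn => ⟨smooth_seq_two hn, totalDegree_univ ℤ n, map_univ _ n⟩⟩
  intro k _ hk p _ _ Λ F _ _ D hD l₀
  have h1 : Pool.Agent.H854.SQ.Transfers (D.T l₀).Tate := transfers_tate hD.chow (hD.valid l₀)
  tfae_have 1 → 3 := fun h X hX n => reduce_one h1 hk pol_two h X hX n
  tfae_have 2 → 3 := fun h X hX n => reduce_one h1 hk (pol_prime p) h X hX n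
  tfae_have 3 → 6 := rank_conjecture hD l₀
  tfae_have 6 → 7 := strong_conjecture hD
  tfae_have 7 → 4 := tateFor_of_strong hD
  tfae_have 4 → 3 := fun h => h l₀
  tfae_have 6 → 5 := oneRank_of_rank hD l₀
  tfae_have 5 → 1 := tate_of_oneRank hD l₀
  tfae_have 3 → 1 := fun h => Filter.Eventually.frequently (Filter.Eventually.of_forall
    fun n => h _ (isAdm_seq pol_two n) _)
  tfae_have 3 → 2 := fun h => Filter.Eventually.frequently (Filter.Eventually.of_forall
    fun n => h _ (isAdm_seq (pol_prime p) n) _)
  tfae_finish

end Pool.Agent.Results.MP_0fca13_ag.StrongFormFromOneGroup
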